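import Pool.Agent.W978.QO.Stm
import Pool.Agent.Helper112.Arith

set_option autoImplicit false

namespace Pool.Agent.W737.QO.Avg

open Finset Pool.Agent.W978.QN Pool.Agent.W978.QO

theorem sum_inv_sq (n : ℕ) : ∑ m ∈ Icc 1 n, (1 / (m : ℝ) ^ 2) ≤ 2 := by
  have h : ∀ n : ℕ, 1 ≤ n → ∑ m ∈ Icc 1 n, (1 / (m : ℝ) ^ 2) ≤ 2 - 1 / (n : ℝ) := by
    intro n hn
    induction n, hn using Nat.le_induction with
    | base => norm_num
    | succ n hn ih =>
      rw [Finset.sum_Icc_succ_top (by omega)]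
      have hn' : (0:ℝ) < n := by exact_mod_cast hn
      push_cast
      have : 1 / ((n:ℝ) + 1)^2 ≤ 1 / n - 1 / (n + 1) := by
        rw [div_sub_div _ _ hn'.ne' (by positivity), div_le_div_iff₀ (by positivity) (by positivity)]
        nlinarith
      linarith
  rcases Nat.eq_zero_or_pos n with h0 | h0
  · subst h0; simp
  · have := h n h0
    have h2 : (0:ℝ) ≤ 1 / (n : ℝ) := by positivity
    linarith

theorem sqf_bound (n : ℕ) : ∑ g ∈ n.divisors, (1 / (g : ℝ)) ≤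
    2 * ∑ d ∈ n.divisors.filter Squarefree, (1 / (d : ℝ)) := by
  classical
  choose A B hAB using fun g : ℕ => Nat.sq_mul_squarefree g
  have h1 : ∑ g ∈ n.divisors, (1 / (g : ℝ)) =
      ∑ g ∈ n.divisors, (1 / (A g : ℝ)) * (1 / (B g : ℝ) ^ 2) := by
    refine Finset.sum_congr rfl fun g _ => ?_
    have e : (g : ℝ) = (B g : ℝ) ^ 2 * (A g : ℝ) := by exact_mod_cast (hAB g).1.symm
    rw [e, one_div_mul_one_div, mul_comm]
  have hinj : Set.InjOn (fun g => (A g, B g)) (n.divisors : Set ℕ) := by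
    intro g _ g' _ h
    simp only [Prod.mk.injEq] at h
    rw [← (hAB g).1, ← (hAB g').1, h.1, h.2]
  calc ∑ g ∈ n.divisors, (1 / (g : ℝ))
      = ∑ z ∈ n.divisors.image (fun g => (A g, B g)), (1 / (z.1 : ℝ)) * (1 / (z.2 : ℝ) ^ 2) := by
        rw [h1, Finset.sum_image hinj]
    _ ≤ ∑ z ∈ (n.divisors.filter Squarefree) ×ˢ (Icc 1 n),
          (1 / (z.1 : ℝ)) * (1 / (z.2 : ℝ) ^ 2) := by
        apply Finset.sum_le_sum_of_subset_of_nonneg
        · intro z hz
          rw [Finset.mem_image] at hz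
          obtain ⟨g, hg, rfl⟩ := hz
          rw [Nat.mem_divisors] at hg
          have hg0 : g ≠ 0 := fun h => hg.2 (by rw [h] at hg; exact Nat.eq_zero_of_zero_dvd hg.1)
          have e := (hAB g).1
          have hB0 : B g ≠ 0 := by
            intro h
            rw [h] at e
            simp at e
            exact hg0 e.symm
          rw [Finset.mem_product, Finset.mem_filter, Nat.mem_divisors, Finset.mem_Icc]
          refine ⟨⟨⟨(Dvd.intro_left _ e).trans hg.1, hg.2⟩, (hAB g).2⟩,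
            Nat.one_le_iff_ne_zero.2 hB0, ?_⟩
          have h3 : B g ∣ g := ⟨B g * A g, by rw [← mul_assoc, ← sq]; exact e.symm⟩
          exact Nat.le_of_dvd (Nat.pos_of_ne_zero hg.2) (h3.trans hg.1)
        · intro z _ _; positivity
    _ = (∑ d ∈ n.divisors.filter Squarefree, (1 / (d : ℝ))) *
          ∑ m ∈ Icc 1 n, (1 / (m : ℝ) ^ 2) := by
        rw [Finset.sum_mul_sum, Finset.sum_product]
    _ ≤ (∑ d ∈ n.divisors.filter Squarefree, (1 / (d : ℝ))) * 2 := by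
        apply mul_le_mul_of_nonneg_left (sum_inv_sq n)
        exact Finset.sum_nonneg fun i _ => by positivity
    _ = _ := mul_comm _ _

theorem coord_count (X d : ℕ) (hd : 1 ≤ d) (hdX : d ≤ X) (x : ZMod d) :
    (((Icc (-(X : ℤ)) X).filter (fun t : ℤ => (t : ZMod d) = x)).card : ℝ) ≤ 4 * X / d := by
  have hd0 : (0 : ℤ) < d := by exact_mod_cast hd
  have h1 : ((Icc (-(X : ℤ)) X).filter (fun t : ℤ => (t : ZMod d) = x)).card ≤
      (Icc (-(X : ℤ) / d) (X / d)).card := by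
    apply Finset.card_le_card_of_injOn (fun t => t / (d : ℤ))
    · intro t ht
      simp only [Finset.coe_filter, Finset.mem_Icc, Set.mem_ofPred_eq] at ht
      simp only [Finset.coe_Icc, Set.mem_Icc]
      exact ⟨Int.ediv_le_ediv hd0 ht.1.1, Int.ediv_le_ediv hd0 ht.1.2⟩
    · intro t ht t' ht' he
      simp only [Finset.coe_filter, Finset.mem_Icc, Set.mem_ofPred_eq] at ht ht'
      have h3 : (t : ZMod d) = (t' : ZMod d) := by rw [ht.2, ht'.2]
      rw [ZMod.intCast_eq_intCast_iff] at h3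
      have h4 : t % d = t' % d := h3
      simp only at he
      have h5 := Int.mul_ediv_add_emod t d
      have h6 := Int.mul_ediv_add_emod t' d
      rw [← h5, ← h6, he, h4]
  have h2 : (Icc (-(X : ℤ) / d) (X / d)).card ≤ 2 * (X / d) + 2 := by
    rw [Int.card_Icc]
    have h3 : -((X : ℤ) / d) - 1 ≤ -(X : ℤ) / d := by
      rw [Int.le_ediv_iff_mul_le hd0]
      have := Int.lt_ediv_add_one_mul_self (X : ℤ) hd0
      nlinarith
    have h4 : ((X / d : ℕ) : ℤ) = (X : ℤ) / d := by push_cast; rfl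
    omega
  have h3 : 1 ≤ X / d := (Nat.one_le_div_iff (by omega)).2 hdX
  have h4 : ((X / d : ℕ) : ℝ) ≤ X / d := Nat.cast_div_le
  have h5 : (((Icc (-(X : ℤ)) X).filter (fun t : ℤ => (t : ZMod d) = x)).card : ℝ) ≤
      ((4 * (X / d) : ℕ) : ℝ) := by exact_mod_cast (by omega)
  push_cast at h5
  calc _ ≤ 4 * ((X / d : ℕ) : ℝ) := h5
    _ ≤ 4 * ((X : ℝ) / d) := by linarith
    _ = 4 * X / d := by ring

theorem cast_det (b : Fin 3 → Fin 3 → Fin 3 → ℤ) (p : Fin 3 → ℤ) (d : ℕ) :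
    (Matrix.of (mp b (fun i => (p i : ZMod d)))).det = ((dm (mp b p) : ℤ) : ZMod d) := by
  rw [Matrix.det_fin_three, dm_eq]
  simp only [Matrix.of_apply, mp]
  push_cast
  rfl

theorem box_count (b : Fin 3 → Fin 3 → Fin 3 → ℤ) (X d : ℕ) (hd : 1 ≤ d) (hdX : d ≤ X) :
    (((bx X).filter (fun p => (d : ℤ) ∣ dm (mp b p))).card : ℝ) ≤
      (Nat.card {x : Fin 3 → ZMod d // (Matrix.of (mp b x)).det = 0} : ℝ) * (4 * X / d) ^ 3 := by
  classical
  have : NeZero d := ⟨by omega⟩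
  let Z : Finset (Fin 3 → ZMod d) := univ.filter (fun x => (Matrix.of (mp b x)).det = 0)
  have hZ : Nat.card {x : Fin 3 → ZMod d // (Matrix.of (mp b x)).det = 0} = Z.card := by
    rw [Nat.card_eq_fintype_card, Fintype.card_subtype]
  have hmaps : ∀ p ∈ (bx X).filter (fun p => (d : ℤ) ∣ dm (mp b p)),
      (fun i => (p i : ZMod d)) ∈ Z := by
    intro p hp
    rw [Finset.mem_filter] at hp
    simp only [Z, Finset.mem_filter, Finset.mem_univ, true_and]
    rw [cast_det, ZMod.intCast_zmod_eq_zero_iff_dvd]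
    exact hp.2
  rw [Finset.card_eq_sum_card_fiberwise (f := fun p : Fin 3 → ℤ => (fun i => (p i : ZMod d)))
    (t := Z) (fun p hp => hmaps p hp), hZ]
  push_cast
  rw [← nsmul_eq_mul, ← Finset.sum_const]
  refine Finset.sum_le_sum fun x _ => ?_
  have hsub : ((bx X).filter (fun p => (d : ℤ) ∣ dm (mp b p))).filter
      (fun p => (fun i => (p i : ZMod d)) = x) ⊆
      Fintype.piFinset (fun i => (Icc (-(X : ℤ)) X).filter (fun t : ℤ => (t : ZMod d) = x i)) := by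
    intro p hp
    rw [Finset.mem_filter, Finset.mem_filter] at hp
    rw [Fintype.mem_piFinset]
    intro i
    rw [Finset.mem_filter]
    have h1 := hp.1.1
    unfold bx at h1
    rw [Fintype.mem_piFinset] at h1
    exact ⟨h1 i, congrFun hp.2 i⟩
  calc ((((bx X).filter (fun p => (d : ℤ) ∣ dm (mp b p))).filter
      (fun p => (fun i => (p i : ZMod d)) = x)).card : ℝ)
      ≤ ((Fintype.piFinset (fun i => (Icc (-(X : ℤ)) X).filter
          (fun t : ℤ => (t : ZMod d) = x i))).card : ℝ) := by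
        exact_mod_cast Finset.card_le_card hsub
    _ = ∏ i, (((Icc (-(X : ℤ)) X).filter (fun t : ℤ => (t : ZMod d) = x i)).card : ℝ) := by
        rw [Fintype.card_piFinset]
        push_cast
        rfl
    _ ≤ ∏ _i : Fin 3, (4 * (X : ℝ) / d) :=
        Finset.prod_le_prod (fun _ _ => by positivity) (fun i _ => coord_count X d hd hdX (x i))
    _ = (4 * X / d) ^ 3 := by rw [Finset.prod_const, Finset.card_univ, Fintype.card_fin]

theorem omega_bound (C : ℝ) (hC : ∀ n : ℕ, 1 ≤ n → (n.divisors.card : ℝ) ≤ C * (n : ℝ) ^ (1 / 4 : ℝ))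
    (d : ℕ) (hd : 1 ≤ d) : (3 : ℝ) ^ d.primeFactors.card ≤ C ^ 2 * (d : ℝ) ^ (1 / 2 : ℝ) := by
  have h1 : 2 ^ d.primeFactors.card ≤ d.divisors.card := by
    rw [Nat.card_divisors (by omega), ← Finset.prod_const]
    apply Finset.prod_le_prod' 
    intro p hp
    have : 1 ≤ d.factorization p := by
      rw [Nat.mem_primeFactors] at hp
      exact (hp.1.dvd_iff_one_le_factorization (by omega)).1 hp.2.1
    omega
  have h2 : ((2 : ℝ) ^ d.primeFactors.card) ≤ C * (d : ℝ) ^ (1 / 4 : ℝ) :=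
    le_trans (by exact_mod_cast h1) (hC d hd)
  have hd0 : (0 : ℝ) ≤ d := by positivity
  calc (3 : ℝ) ^ d.primeFactors.card ≤ 4 ^ d.primeFactors.card :=
        pow_le_pow_left₀ (by norm_num) (by norm_num) _
    _ = ((2 : ℝ) ^ d.primeFactors.card) ^ 2 := by
        rw [← pow_mul, mul_comm, pow_mul]
        norm_num
    _ ≤ (C * (d : ℝ) ^ (1 / 4 : ℝ)) ^ 2 := pow_le_pow_left₀ (by positivity) h2 2
    _ = C ^ 2 * (d : ℝ) ^ (1 / 2 : ℝ) := by
        rw [mul_pow, ← Real.rpow_natCast ((d : ℝ) ^ (1 / 4 : ℝ)) 2, ← Real.rpow_mul hd0]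
        norm_num

theorem term_bound (C1 C2 : ℝ) (hC1 : 0 < C1)
    (hC : ∀ n : ℕ, 1 ≤ n → (n.divisors.card : ℝ) ≤ C2 * (n : ℝ) ^ (1 / 4 : ℝ))
    (X d : ℕ) (hd : 1 ≤ d) (N : ℝ) (hN : N ≤ C1 * (3 : ℝ) ^ d.primeFactors.card * (d : ℝ) ^ 2) :
    1 / (d : ℝ) * (N * (4 * X / d) ^ 3) ≤
      64 * C1 * C2 ^ 2 * (X : ℝ) ^ 3 * (1 / (d : ℝ) ^ (3 / 2 : ℝ)) := by
  have hd0 : (0 : ℝ) < d := by exact_mod_cast hd
  have h1 := omega_bound C2 hC d hd
  have h2 : N ≤ C1 * (C2 ^ 2 * (d : ℝ) ^ (1 / 2 : ℝ)) * (d : ℝ) ^ 2 := by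
    refine le_trans hN ?_
    gcongr
  have h3 : (d : ℝ) ^ (1 / 2 : ℝ) * (d : ℝ) ^ (3 / 2 : ℝ) = (d : ℝ) ^ 2 := by
    rw [← Real.rpow_add hd0]
    norm_num
  have h4 : (0 : ℝ) < (d : ℝ) ^ (3 / 2 : ℝ) := by positivity
  calc 1 / (d : ℝ) * (N * (4 * X / d) ^ 3)
      ≤ 1 / (d : ℝ) * ((C1 * (C2 ^ 2 * (d : ℝ) ^ (1 / 2 : ℝ)) * (d : ℝ) ^ 2) *
        (4 * X / d) ^ 3) := by gcongr
    _ = 64 * C1 * C2 ^ 2 * (X : ℝ) ^ 3 * ((d : ℝ) ^ (1 / 2 : ℝ) / (d : ℝ) ^ 2) := by
        field_simp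
        ring
    _ = 64 * C1 * C2 ^ 2 * (X : ℝ) ^ 3 * (1 / (d : ℝ) ^ (3 / 2 : ℝ)) := by
        congr 1
        rw [div_eq_div_iff (by positivity) (by positivity), one_mul, h3]

theorem main : S_RHO → S_AVG := by
  intro hrho b hdet
  classical
  obtain ⟨C1, hC1, hrho'⟩ := hrho b hdet
  obtain ⟨C2, hC2, hdiv2⟩ := Pool.Agent.Helper112.divisor_bound (1/4) (by norm_num)
  obtain ⟨C3, hC3, hdiv3⟩ := Pool.Agent.Helper112.divisor_bound (1/3) (by norm_num)
  have hsum : Summable (fun e : ℕ => (1 / (e:ℝ) ^ (3/2 : ℝ))) :=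
    Real.summable_one_div_nat_rpow.mpr (by norm_num)
  obtain ⟨D, hD⟩ : ∃ D : ℝ, D = ∑' e : ℕ, (1 / (e:ℝ) ^ (3/2 : ℝ)) := ⟨_, rfl⟩
  have hD0 : 0 ≤ D := by rw [hD]; exact tsum_nonneg (fun e => by positivity)
  obtain ⟨M, hM⟩ : ∃ M : ℝ, M = 3 * (mxb b : ℝ) := ⟨_, rfl⟩
  have hM0 : 0 ≤ M := by rw [hM]; positivity
  obtain ⟨c, hc⟩ : ∃ c : ℝ, c = C3 * (6 * M ^ 3) ^ (1/3:ℝ) := ⟨_, rfl⟩
  have hc0 : 0 ≤ c := by rw [hc]; positivity
  refine ⟨2 * (64 * C1 * C2 ^ 2 * D + 27 * c) + 1, by positivity, ?_⟩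
  intro X hX
  have hX0 : (0 : ℝ) < X := by exact_mod_cast hX
  have hp : ∀ p ∈ (bx X).filter (fun p => dm (mp b p) ≠ 0),
      ∑ g ∈ (dm (mp b p)).natAbs.divisors, (1 / (g : ℝ)) ≤
      2 * (∑ d ∈ (Icc 1 X).filter Squarefree,
        (if (d : ℤ) ∣ dm (mp b p) then 1 / (d : ℝ) else 0) + c) := by
    intro p hpP
    rw [Finset.mem_filter] at hpP
    obtain ⟨n, hn⟩ : ∃ n : ℕ, n = (dm (mp b p)).natAbs := ⟨_, rfl⟩
    rw [← hn]
    have hn0 : n ≠ 0 := by rw [hn, Int.natAbs_ne_zero]; exact hpP.2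
    refine le_trans (sqf_bound n) ?_
    apply mul_le_mul_of_nonneg_left _ (by norm_num)
    rw [← Finset.sum_filter_add_sum_filter_not (n.divisors.filter Squarefree) (fun d => d ≤ X)]
    refine add_le_add ?_ ?_
    · rw [← Finset.sum_filter]
      apply Finset.sum_le_sum_of_subset_of_nonneg
      · intro d hd
        rw [mem_filter, mem_filter, Nat.mem_divisors] at hd
        rw [mem_filter, mem_filter, mem_Icc]
        refine ⟨⟨⟨Nat.pos_of_dvd_of_pos hd.1.1.1 (Nat.pos_of_ne_zero hn0), hd.2⟩, hd.1.2⟩, ?_⟩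
        rw [← Int.dvd_natAbs, ← hn]
        exact_mod_cast hd.1.1.1
      · intro i _ _
        positivity
    · have hnle : (n : ℝ) ≤ 6 * (M * X) ^ 3 := by
        have h1 := dm_le (M := mp b p) (Z := 3 * mxb b * X) (by positivity)
          (fun k j => mp_le b hpP.1 k j)
        have h2 : ((n : ℤ) : ℝ) = |((dm (mp b p) : ℤ) : ℝ)| := by
          rw [hn, Int.natCast_natAbs]
          push_cast
          rfl
        have h3 : |((dm (mp b p) : ℤ) : ℝ)| ≤ 6 * (3 * (mxb b : ℝ) * X) ^ 3 := by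
          exact_mod_cast h1
        rw [hM]
        calc (n : ℝ) = ((n : ℤ) : ℝ) := by push_cast; rfl
          _ ≤ _ := by rw [h2]; exact h3
      have hpow : (n : ℝ) ^ (1/3 : ℝ) ≤ (6 * M ^ 3) ^ (1/3 : ℝ) * X := by
        calc (n : ℝ) ^ (1/3 : ℝ) ≤ (6 * (M * X) ^ 3) ^ (1/3 : ℝ) :=
              Real.rpow_le_rpow (by positivity) hnle (by norm_num)
          _ = ((6 * M ^ 3) * (X : ℝ) ^ 3) ^ (1/3 : ℝ) := by congr 1; ring
          _ = (6 * M ^ 3) ^ (1/3 : ℝ) * ((X : ℝ) ^ 3) ^ (1/3 : ℝ) :=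
              Real.mul_rpow (by positivity) (by positivity)
          _ = (6 * M ^ 3) ^ (1/3 : ℝ) * X := by
              congr 1
              rw [← Real.rpow_natCast (X : ℝ) 3, ← Real.rpow_mul hX0.le]
              norm_num
      calc ∑ d ∈ (n.divisors.filter Squarefree).filter (fun d => ¬ d ≤ X), (1 / (d : ℝ))
          ≤ ∑ d ∈ (n.divisors.filter Squarefree).filter (fun d => ¬ d ≤ X), (1 / (X : ℝ)) := by
            refine Finset.sum_le_sum fun d hd => ?_
            apply one_div_le_one_div_of_le hX0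
            exact_mod_cast (not_le.1 (mem_filter.1 hd).2).le
        _ = (((n.divisors.filter Squarefree).filter (fun d => ¬ d ≤ X)).card : ℝ) *
              (1 / (X : ℝ)) := by rw [Finset.sum_const, nsmul_eq_mul]
        _ ≤ (n.divisors.card : ℝ) * (1 / (X : ℝ)) := by
            apply mul_le_mul_of_nonneg_right _ (by positivity)
            exact_mod_cast Finset.card_le_card ((filter_subset _ _).trans (filter_subset _ _))
        _ ≤ (C3 * ((6 * M ^ 3) ^ (1/3 : ℝ) * X)) * (1 / (X : ℝ)) := by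
            apply mul_le_mul_of_nonneg_right _ (by positivity)
            exact le_trans (hdiv3 n (Nat.one_le_iff_ne_zero.2 hn0))
              (mul_le_mul_of_nonneg_left hpow hC3.le)
        _ = c := by
            rw [hc]
            field_simp
  have hd : ∀ d ∈ (Icc 1 X).filter Squarefree,
      ∑ p ∈ (bx X).filter (fun p => dm (mp b p) ≠ 0),
        (if (d : ℤ) ∣ dm (mp b p) then 1 / (d : ℝ) else 0) ≤
      64 * C1 * C2 ^ 2 * (X : ℝ) ^ 3 * (1 / (d : ℝ) ^ (3 / 2 : ℝ)) := by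
    intro d hd
    rw [mem_filter, mem_Icc] at hd
    calc ∑ p ∈ (bx X).filter (fun p => dm (mp b p) ≠ 0),
        (if (d : ℤ) ∣ dm (mp b p) then 1 / (d : ℝ) else 0)
        ≤ ∑ p ∈ bx X, (if (d : ℤ) ∣ dm (mp b p) then 1 / (d : ℝ) else 0) := by
          apply Finset.sum_le_sum_of_subset_of_nonneg (filter_subset _ _)
          intro p _ _
          split
          · positivity
          · exact le_refl _
      _ = 1 / (d : ℝ) * (((bx X).filter (fun p => (d : ℤ) ∣ dm (mp b p))).card : ℝ) := by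
          rw [← Finset.sum_filter, Finset.sum_const, nsmul_eq_mul, mul_comm]
      _ ≤ 1 / (d : ℝ) * ((Nat.card {x : Fin 3 → ZMod d // (Matrix.of (mp b x)).det = 0} : ℝ) *
            (4 * X / d) ^ 3) := by
          apply mul_le_mul_of_nonneg_left (box_count b X d hd.1.1 hd.1.2) (by positivity)
      _ ≤ _ := term_bound C1 C2 hC1 hdiv2 X d hd.1.1 _ (hrho' d hd.1.1 hd.2)
  have hDle : ∑ d ∈ (Icc 1 X).filter Squarefree, (1 / (d : ℝ) ^ (3 / 2 : ℝ)) ≤ D := by
    rw [hD]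
    exact hsum.sum_le_tsum _ (fun i _ => by positivity)
  calc ∑ p ∈ (bx X).filter (fun p => dm (mp b p) ≠ 0),
      ∑ g ∈ (dm (mp b p)).natAbs.divisors, (1 / (g : ℝ))
      ≤ ∑ p ∈ (bx X).filter (fun p => dm (mp b p) ≠ 0),
        2 * (∑ d ∈ (Icc 1 X).filter Squarefree,
        (if (d : ℤ) ∣ dm (mp b p) then 1 / (d : ℝ) else 0) + c) := Finset.sum_le_sum hp
    _ = 2 * (∑ d ∈ (Icc 1 X).filter Squarefree,
        ∑ p ∈ (bx X).filter (fun p => dm (mp b p) ≠ 0),
        (if (d : ℤ) ∣ dm (mp b p) then 1 / (d : ℝ) else 0) +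
        (((bx X).filter (fun p => dm (mp b p) ≠ 0)).card : ℝ) * c) := by
        rw [← Finset.mul_sum, Finset.sum_add_distrib, Finset.sum_comm, Finset.sum_const,
          nsmul_eq_mul]
    _ ≤ 2 * (∑ d ∈ (Icc 1 X).filter Squarefree,
          64 * C1 * C2 ^ 2 * (X : ℝ) ^ 3 * (1 / (d : ℝ) ^ (3 / 2 : ℝ)) +
          27 * (X : ℝ) ^ 3 * c) := by
        apply mul_le_mul_of_nonneg_left _ (by norm_num)
        apply add_le_add (Finset.sum_le_sum hd)
        apply mul_le_mul_of_nonneg_right _ hc0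
        refine le_trans ?_ (card_bx_le hX)
        exact_mod_cast Finset.card_le_card (filter_subset _ _)
    _ ≤ 2 * (64 * C1 * C2 ^ 2 * (X : ℝ) ^ 3 * D + 27 * (X : ℝ) ^ 3 * c) := by
        rw [← Finset.mul_sum]
        gcongr
    _ ≤ (2 * (64 * C1 * C2 ^ 2 * D + 27 * c) + 1) * (X : ℝ) ^ 3 := by
        have : (0 : ℝ) ≤ (X : ℝ) ^ 3 := by positivity
        nlinarith

end Pool.Agent.W737.QO.Avg
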